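import Pool.Agent.Helper61.Apc.Defs

/-!
# AP-7: finitely many absolute values with finite balls

For a finite set `T` of algebraic numbers there are finitely many absolute values of the field of
all algebraic numbers such that the elements of the ring generated by `T`, at which all of them
are bounded, form a finite set.
-/

set_option autoImplicit false

namespace Pool.Agent.Helper61.Apc

open Polynomial

variable {A : Type} [Field A] [CharZero A]

/-- the elements which become integral after multiplication by a power of `N` -/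
private def locInt (A : Type) [Field A] (N : ℕ) : Subring A where
  carrier := {x | ∃ j : ℕ, IsIntegral ℤ ((N : A) ^ j * x)}
  mul_mem' := by
    rintro x y ⟨j, hj⟩ ⟨k, hk⟩
    refine ⟨j + k, ?_⟩
    have h := hj.mul hk
    have e : (N : A) ^ j * x * ((N : A) ^ k * y) = (N : A) ^ (j + k) * (x * y) := by ring
    rw [e] at h
    exact h
  one_mem' := ⟨0, by simpa using isIntegral_one⟩
  add_mem' := by
    rintro x y ⟨j, hj⟩ ⟨k, hk⟩
    refine ⟨j + k, ?_⟩
    have hN : IsIntegral ℤ (N : A) := by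
      have := isIntegral_algebraMap (R := ℤ) (A := A) (x := (N : ℤ))
      simpa using this
    have h := ((hN.pow k).mul hj).add ((hN.pow j).mul hk)
    have e : (N : A) ^ k * ((N : A) ^ j * x) + (N : A) ^ j * ((N : A) ^ k * y) =
        (N : A) ^ (j + k) * (x + y) := by ring
    rw [e] at h
    exact h
  zero_mem' := ⟨0, by simpa using isIntegral_zero⟩
  neg_mem' := by
    rintro x ⟨j, hj⟩
    refine ⟨j, ?_⟩
    have h := hj.neg
    have e : -((N : A) ^ j * x) = (N : A) ^ j * -x := by ring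
    rw [e] at h
    exact h

omit [CharZero A] in
private theorem mem_locInt {N : ℕ} {x : A} :
    x ∈ locInt A N ↔ ∃ j : ℕ, IsIntegral ℤ ((N : A) ^ j * x) := Iff.rfl

private theorem map_mem_locInt {N : ℕ} {x : A} (hx : x ∈ locInt A N)
    (φ : A →ₐ[ℚ] A) : φ x ∈ locInt A N := by
  obtain ⟨j, hj⟩ := hx
  refine ⟨j, ?_⟩
  have h := hj.map (φ.toRingHom.toIntAlgHom)
  convert h using 1
  change _ = φ ((N : A) ^ j * x)
  rw [map_mul, map_pow, map_natCast]

/-- a common denominator -/
private theorem exists_denominator [Algebra.IsAlgebraic ℚ A] (T : Finset (A)) :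
    ∃ N : ℕ, N ≠ 0 ∧ ∀ t ∈ T, t ∈ locInt A N := by
  classical
  have h1 : ∀ t : A, ∃ n : ℕ, n ≠ 0 ∧ IsIntegral ℤ ((n : A) * t) := by
    intro t
    have ht : IsAlgebraic ℤ t := by
      have : IsAlgebraic ℚ t := Algebra.IsAlgebraic.isAlgebraic t
      exact (IsFractionRing.isAlgebraic_iff ℤ ℚ (A)).2 this
    obtain ⟨y, hy, hi⟩ := ht.exists_integral_multiple
    refine ⟨y.natAbs, Int.natAbs_ne_zero.2 hy, ?_⟩
    rw [zsmul_eq_mul] at hi
    rcases Int.natAbs_eq y with h | h
    · have : ((y.natAbs : ℕ) : A) = (y : A) := by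
        conv_rhs => rw [h]
        simp
      rw [this]; exact hi
    · have : ((y.natAbs : ℕ) : A) = - (y : A) := by
        conv_rhs => rw [h]
        simp
      rw [this, neg_mul]; exact hi.neg
  choose n hn hi using h1
  refine ⟨∏ t ∈ T, n t, Finset.prod_ne_zero_iff.2 fun t _ => hn t, fun t ht => ⟨1, ?_⟩⟩
  rw [pow_one, ← Finset.mul_prod_erase T n ht]
  have h2 : IsIntegral ℤ ((∏ s ∈ T.erase t, n s : ℕ) : A) := by
    have := isIntegral_algebraMap (R := ℤ) (A := A)
      (x := ((∏ s ∈ T.erase t, n s : ℕ) : ℤ))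
    simpa using this
  have h3 := h2.mul (hi t)
  have e : ((∏ s ∈ T.erase t, n s : ℕ) : A) * ((n t : A) * t) =
      ((n t * ∏ s ∈ T.erase t, n s : ℕ) : A) * t := by
    rw [Nat.cast_mul]
    ring
  rw [e] at h3
  exact h3

private theorem coeff_bound {K : Type*} [Field K] (v : AbsoluteValue K ℝ) (B : ℝ) (hB : 0 ≤ B)
    (s : Multiset K) (hs : ∀ r ∈ s, v r ≤ B) :
    ∀ i, v ((s.map fun r => X - C r).prod.coeff i) ≤ (1 + B) ^ Multiset.card s := by
  induction s using Multiset.induction_on with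
  | empty =>
    intro i
    rw [Multiset.map_zero, Multiset.prod_zero, Multiset.card_zero, pow_zero, coeff_one]
    split_ifs
    · rw [map_one]
    · rw [map_zero]; exact zero_le_one
  | cons r s ih =>
    intro i
    have ih' := ih fun r' hr' => hs r' (Multiset.mem_cons_of_mem hr')
    have hr : v r ≤ B := hs r (Multiset.mem_cons_self r s)
    rw [Multiset.map_cons, Multiset.prod_cons, Multiset.card_cons, pow_succ, sub_mul, coeff_sub,
      coeff_C_mul]
    have h1 : 0 ≤ (1 + B) ^ Multiset.card s := by positivity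
    have h2 : v (r * (s.map fun r => X - C r).prod.coeff i) ≤ B * (1 + B) ^ Multiset.card s := by
      rw [map_mul]
      exact mul_le_mul hr (ih' i) (v.nonneg _) hB
    have h3 : v ((X * (s.map fun r => X - C r).prod).coeff i) ≤ (1 + B) ^ Multiset.card s := by
      cases i with
      | zero => rw [coeff_X_mul_zero, map_zero]; exact h1
      | succ i => rw [coeff_X_mul]; exact ih' i
    calc _ ≤ v ((X * (s.map fun r => X - C r).prod).coeff i) +
          v (r * (s.map fun r => X - C r).prod.coeff i) := v.sub_le_add _ _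
      _ ≤ (1 + B) ^ Multiset.card s + B * (1 + B) ^ Multiset.card s := add_le_add h3 h2
      _ = _ := by ring

private theorem coeff_mem {K : Type*} [Field K] (R : Subring K) (s : Multiset K)
    (hs : ∀ r ∈ s, r ∈ R) : ∀ i, (s.map fun r => X - C r).prod.coeff i ∈ R := by
  induction s using Multiset.induction_on with
  | empty =>
    intro i
    rw [Multiset.map_zero, Multiset.prod_zero, coeff_one]
    split_ifs
    · exact R.one_mem
    · exact R.zero_mem
  | cons r s ih =>
    intro i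
    have ih' := ih fun r' hr' => hs r' (Multiset.mem_cons_of_mem hr')
    have hr : r ∈ R := hs r (Multiset.mem_cons_self r s)
    rw [Multiset.map_cons, Multiset.prod_cons, sub_mul, coeff_sub, coeff_C_mul]
    refine R.sub_mem ?_ (R.mul_mem hr (ih' i))
    cases i with
    | zero => rw [coeff_X_mul_zero]; exact R.zero_mem
    | succ i => rw [coeff_X_mul]; exact ih' i

/-- a rational number in `locInt A N` has a denominator dividing a power of `N` -/
private theorem den_dvd_of_mem {N : ℕ} (hN : N ≠ 0) {c : ℚ}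
    (hc : algebraMap ℚ A c ∈ locInt A N) : ∃ m, c.den ∣ N ^ m := by
  obtain ⟨m, hm⟩ := hc
  refine ⟨m, ?_⟩
  have h1 : IsIntegral ℤ ((N : ℚ) ^ m * c) := by
    have h2 : (N : A) ^ m * algebraMap ℚ A c =
        algebraMap ℚ A ((N : ℚ) ^ m * c) := by
      rw [map_mul, map_pow, map_natCast]
    rw [h2] at hm
    exact (isIntegral_algebraMap_iff (algebraMap ℚ (A)).injective).1 hm
  obtain ⟨z, hz⟩ := (IsIntegrallyClosed.isIntegral_iff (R := ℤ) (K := ℚ)).1 h1
  have h3 : c = Rat.divInt z ((N ^ m : ℕ) : ℤ) := by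
    have h4 : ((N : ℚ) ^ m) ≠ 0 := by positivity
    rw [Rat.divInt_eq_div]
    push_cast
    rw [eq_div_iff h4, mul_comm, ← hz]
    simp
  have h5 := Rat.den_dvd z ((N ^ m : ℕ) : ℤ)
  rw [← h3] at h5
  exact_mod_cast h5

/-- the power of `p` in the denominator is bounded by the norm -/
private theorem ordProj_den_le {p : ℕ} (hp : p.Prime) (c : ℚ) (hd : p ∣ c.den) :
    ((p ^ (c.den.factorization p) : ℕ) : ℚ) ≤ padicNorm p c := by
  have : Fact p.Prime := ⟨hp⟩
  have hc : c ≠ 0 := by
    rintro rfl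
    exact hp.one_lt.ne' (Nat.dvd_one.1 hd)
  have hnum : ¬ (p : ℤ) ∣ c.num := by
    intro h
    have h1 : p ∣ c.num.natAbs := Int.natCast_dvd.1 h
    have h2 := Nat.dvd_gcd h1 hd
    rw [c.reduced] at h2
    exact hp.one_lt.ne' (Nat.dvd_one.1 h2)
  rw [padicNorm.eq_zpow_of_nonzero hc, padicValRat_def, padicValInt.eq_zero_of_not_dvd hnum]
  rw [Nat.factorization_def _ hp]
  rw [Nat.cast_zero, zero_sub, neg_neg, zpow_natCast, Nat.cast_pow]

/-- finitely many rational numbers -/
private theorem finite_rat (N : ℕ) (hN : N ≠ 0) (B : ℝ) :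
    {c : ℚ | |(c : ℝ)| ≤ B ∧ (∀ p ∈ N.primeFactors, ((padicNorm p c : ℚ) : ℝ) ≤ B) ∧
      ∃ m, c.den ∣ N ^ m}.Finite := by
  obtain ⟨B', hB'⟩ : ∃ B' : ℝ, B' = max B 1 := ⟨_, rfl⟩
  have hB1 : 1 ≤ B' := by rw [hB']; exact le_max_right _ _
  have hBB : B ≤ B' := by rw [hB']; exact le_max_left _ _
  obtain ⟨M, hM⟩ : ∃ M : ℕ, B' ^ (N.primeFactors.card) ≤ M := exists_nat_ge _
  obtain ⟨L, hL⟩ : ∃ L : ℕ, B' * M ≤ L := exists_nat_ge _
  have hfin : (((Set.Icc (-(L : ℤ)) L) ×ˢ (Set.Icc (0 : ℕ) M)).image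
      (fun q : ℤ × ℕ => (q.1 : ℚ) / (q.2 : ℚ))).Finite :=
    ((Set.finite_Icc _ _).prod (Set.finite_Icc _ _)).image _
  refine hfin.subset ?_
  rintro c ⟨h1, h2, m, hm⟩
  have hden : (c.den : ℝ) ≤ M := by
    refine le_trans ?_ hM
    have h3 : c.den.primeFactors ⊆ N.primeFactors := by
      intro p hp
      rw [Nat.mem_primeFactors] at hp ⊢
      exact ⟨hp.1, hp.1.dvd_of_dvd_pow (hp.2.1.trans hm), hN⟩
    have h4 : (c.den : ℝ) = ∏ p ∈ c.den.primeFactors, ((p ^ (c.den.factorization p) : ℕ) : ℝ) := by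
      conv_lhs => rw [← Nat.prod_factorization_pow_eq_self c.den_nz]
      rw [Finsupp.prod, Nat.support_factorization]
      push_cast
      rfl
    rw [h4]
    calc _ ≤ ∏ p ∈ c.den.primeFactors, B' := by
          refine Finset.prod_le_prod (fun p _ => by positivity) fun p hp => ?_
          refine le_trans ?_ ((h2 p (h3 hp)).trans hBB)
          rw [Nat.mem_primeFactors] at hp
          exact_mod_cast ordProj_den_le hp.1 c hp.2.1
      _ = B' ^ (c.den.primeFactors.card) := by rw [Finset.prod_const]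
      _ ≤ B' ^ (N.primeFactors.card) := pow_le_pow_right₀ hB1 (Finset.card_le_card h3)
  have hdpos : (0 : ℝ) < c.den := by exact_mod_cast c.den_pos
  have hnum : |(c.num : ℝ)| ≤ L := by
    refine le_trans ?_ hL
    have h5 : (c.num : ℝ) = (c : ℝ) * c.den := by
      have : (c : ℚ) * c.den = c.num := Rat.mul_den_eq_num c
      exact_mod_cast this.symm
    rw [h5, abs_mul, abs_of_pos hdpos]
    exact mul_le_mul (h1.trans hBB) hden hdpos.le (by linarith)
  refine ⟨(c.num, c.den), ⟨⟨?_, ?_⟩, ⟨Nat.zero_le _, ?_⟩⟩, ?_⟩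
  · have := (abs_le.1 hnum).1
    exact_mod_cast this
  · have := (abs_le.1 hnum).2
    exact_mod_cast this
  · exact_mod_cast hden
  · exact Rat.num_div_den c

/-- the absolute value of an embedding -/
private def absOf {K L : Type*} [Field K] [NormedField L] (σ : K →+* L) : AbsoluteValue K ℝ where
  toFun x := ‖σ x‖
  map_mul' x y := by rw [map_mul, norm_mul]
  nonneg' x := norm_nonneg _
  eq_zero' x := by rw [norm_eq_zero, map_eq_zero]
  add_le' x y := by rw [map_add]; exact norm_add_le _ _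

private theorem absOf_apply {K L : Type*} [Field K] [NormedField L] (σ : K →+* L) (x : K) :
    absOf σ x = ‖σ x‖ := rfl

/-- an absolute value extending the `p`-adic one -/
private theorem exists_padic [Algebra.IsAlgebraic ℚ A] (p : ℕ) (hp : p.Prime) :
    ∃ w : AbsoluteValue A ℝ, (∀ x y, w (x + y) ≤ max (w x) (w y)) ∧
      ∀ c : ℚ, w (algebraMap ℚ A c) = ((padicNorm p c : ℚ) : ℝ) := by
  have : Fact p.Prime := ⟨hp⟩
  let τ : A →ₐ[ℚ] PadicAlgCl p := IsAlgClosed.lift
  refine ⟨absOf τ.toRingHom, fun x y => ?_, fun c => ?_⟩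
  · rw [absOf_apply, absOf_apply, absOf_apply, map_add]
    exact PadicAlgCl.isNonarchimedean p _ _
  · rw [absOf_apply]
    change ‖τ (algebraMap ℚ A c)‖ = _
    rw [AlgHom.commutes, ← Padic.eq_padicNorm, ← PadicAlgCl.norm_extends]
    congr 1

private theorem exists_places_aux [IsAlgClosed A] [Algebra.IsAlgebraic ℚ A] (T : Finset A) :
    ∃ (k : ℕ) (v : Fin k → AbsoluteValue A ℝ),
      (∀ i, (∃ σ : A →+* ℂ, ∀ x, v i x = ‖σ x‖) ∨
        (∀ x y, v i (x + y) ≤ max (v i x) (v i y))) ∧
      ∀ B : ℝ, {x : A | x ∈ Subring.closure (T : Set A) ∧ ∀ i, v i x ≤ B}.Finite := by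
  classical
  obtain ⟨N, hN, hT⟩ := exists_denominator T
  have hcl : Subring.closure (T : Set A) ≤ locInt A N :=
    Subring.closure_le.2 fun t ht => hT t ht
  obtain ⟨K, hKd⟩ : ∃ K : IntermediateField ℚ A, K = IntermediateField.adjoin ℚ (T : Set A) :=
    ⟨_, rfl⟩
  have hfd : FiniteDimensional ℚ K := by
    rw [hKd]
    exact IntermediateField.finiteDimensional_adjoin
      (fun t _ => (Algebra.IsAlgebraic.isAlgebraic t).isIntegral)
  have hK : ∀ x ∈ Subring.closure (T : Set A), x ∈ K := by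
    intro x hx
    have h1 : Subring.closure (T : Set A) ≤ K.toSubfield.toSubring :=
      Subring.closure_le.2 fun t ht => by
        rw [hKd]
        exact IntermediateField.subset_adjoin ℚ _ ht
    exact h1 hx
  -- extensions
  have hext : ∀ ψ : K →ₐ[ℚ] A, ∃ φ : A →ₐ[ℚ] A, ∀ x : K, φ x = ψ x := by
    intro ψ
    obtain ⟨φ, hφ⟩ := IsAlgClosed.surjective_domRestrict_of_isAlgebraic (K := ℚ) (L := K)
      (M := A) (E := A) ψ
    exact ⟨φ, fun x => by rw [← hφ]; rfl⟩
  choose ext hext using hext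
  -- absolute values extending the ones of the rational numbers
  have hbase : ∀ o : Option N.primeFactors, ∃ w : AbsoluteValue A ℝ,
      ((∃ σ : A →+* ℂ, ∀ x, w x = ‖σ x‖) ∨ (∀ x y, w (x + y) ≤ max (w x) (w y))) ∧
      (o = none → ∀ c : ℚ, w (algebraMap ℚ A c) = |(c : ℝ)|) ∧
      ∀ p : N.primeFactors, o = some p → ∀ c : ℚ, w (algebraMap ℚ A c) =
        ((padicNorm p c : ℚ) : ℝ) := by
    intro o
    cases o with
    | none =>
      let τ : A →ₐ[ℚ] ℂ := IsAlgClosed.lift
      refine ⟨absOf τ.toRingHom, Or.inl ⟨τ.toRingHom, fun x => rfl⟩, fun _ c => ?_,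
        fun p hp => absurd hp.symm (Option.some_ne_none p)⟩
      rw [absOf_apply]
      change ‖τ (algebraMap ℚ A c)‖ = _
      rw [AlgHom.commutes, eq_ratCast, Complex.norm_ratCast]
    | some p =>
      obtain ⟨w, hw1, hw2⟩ := exists_padic (A := A) p.1 (Nat.prime_of_mem_primeFactors p.2)
      refine ⟨w, Or.inr hw1, ⟨fun h => absurd h (Option.some_ne_none p), fun q hq c => ?_⟩⟩
      obtain rfl : p = q := Option.some.inj hq
      exact hw2 c
  choose w hw1 hw2 hw3 using hbase
  obtain ⟨k, ⟨e⟩⟩ := Finite.exists_equiv_fin ((K →ₐ[ℚ] A) × Option N.primeFactors)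
  refine ⟨k, fun i => (w (e.symm i).2).comp (f := (ext (e.symm i).1).toRingHom)
    (RingHom.injective _), ?_, ?_⟩
  · intro i
    rcases hw1 (e.symm i).2 with ⟨σ, hσ⟩ | h
    · exact Or.inl ⟨σ.comp (ext (e.symm i).1).toRingHom, fun x => hσ _⟩
    · refine Or.inr fun x y => ?_
      change w _ ((ext (e.symm i).1).toRingHom (x + y)) ≤ _
      rw [map_add]
      exact h _ _
  · intro B
    obtain ⟨B', hB'⟩ : ∃ B', B' = max B 0 := ⟨_, rfl⟩
    have hB0 : 0 ≤ B' := by rw [hB']; exact le_max_right _ _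
    have hBB : B ≤ B' := by rw [hB']; exact le_max_left _ _
    obtain ⟨n, hn⟩ : ∃ n, n = Module.finrank ℚ K := ⟨_, rfl⟩
    refine (Polynomial.bUnion_roots_finite (algebraMap ℚ A) n
      (finite_rat N hN ((1 + B') ^ n))).subset ?_
    rintro x ⟨hx, hxv⟩
    obtain ⟨x', hx'⟩ : ∃ x' : K, (x' : A) = x := ⟨⟨x, hK x hx⟩, rfl⟩
    have hmin : minpoly ℚ x = minpoly ℚ x' := by
      rw [← hx']
      exact minpoly.algebraMap_eq (algebraMap K A).injective x'
    have hint : IsIntegral ℚ x := (Algebra.IsAlgebraic.isAlgebraic x).isIntegral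
    have hmonic := minpoly.monic hint
    have hdeg : (minpoly ℚ x).natDegree ≤ n := by
      rw [hmin, hn]
      exact minpoly.natDegree_le x'
    obtain ⟨P, hP⟩ : ∃ P : A[X], P = (minpoly ℚ x).map (algebraMap ℚ A) := ⟨_, rfl⟩
    have hPm : P.Monic := by rw [hP]; exact hmonic.map _
    have hPdeg : P.natDegree ≤ n := by
      rw [hP, hmonic.natDegree_map]; exact hdeg
    have hprod : P = (P.roots.map fun r => X - C r).prod :=
      (IsAlgClosed.splits P).eq_prod_roots_of_monic hPm
    have hcard : Multiset.card P.roots ≤ n := (P.card_roots').trans hPdeg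
    have hroots : ∀ r ∈ P.roots, ∃ ψ : K →ₐ[ℚ] A, ext ψ x = r := by
      intro r hr
      have h1 : r ∈ (minpoly ℚ x').rootSet A := by
        rw [Polynomial.mem_rootSet']
        rw [hP, hmin, Polynomial.mem_roots'] at hr
        exact ⟨hr.1, by rw [Polynomial.aeval_def, ← Polynomial.eval_map]; exact hr.2⟩
      rw [← Algebra.IsAlgebraic.range_eval_eq_rootSet_minpoly A x'] at h1
      obtain ⟨ψ, hψ⟩ := h1
      exact ⟨ψ, by rw [← hx', hext]; exact hψ⟩
    have hcoef : ∀ i, algebraMap ℚ A ((minpoly ℚ x).coeff i) = P.coeff i := by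
      intro i
      rw [hP, Polynomial.coeff_map]
    have hbd : ∀ o i, w o (P.coeff i) ≤ (1 + B') ^ n := by
      intro o i
      have h1 := coeff_bound (w o) B' hB0 P.roots (fun r hr => ?_) i
      · rw [← hprod] at h1
        exact h1.trans (pow_le_pow_right₀ (by linarith) hcard)
      · obtain ⟨ψ, rfl⟩ := hroots r hr
        have h2 := hxv (e (ψ, o))
        change w (e.symm (e (ψ, o))).2 (ext (e.symm (e (ψ, o))).1 x) ≤ B at h2
        rw [Equiv.symm_apply_apply] at h2
        exact h2.trans hBB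
    have hmem : ∀ i, P.coeff i ∈ locInt A N := by
      intro i
      rw [hprod]
      refine coeff_mem (locInt A N) P.roots (fun r hr => ?_) i
      obtain ⟨ψ, rfl⟩ := hroots r hr
      exact map_mem_locInt (hcl hx) (ext ψ)
    simp only [Set.mem_iUnion]
    refine ⟨minpoly ℚ x, ⟨hdeg, fun i => ⟨?_, ?_, ?_⟩⟩, ?_⟩
    · rw [← hw2 none rfl, hcoef]
      exact hbd none i
    · intro p hp
      rw [← hw3 (some ⟨p, hp⟩) ⟨p, hp⟩ rfl, hcoef]
      exact hbd _ i
    · refine den_dvd_of_mem (A := A) hN ?_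
      rw [hcoef]
      exact hmem i
    · rw [Finset.mem_coe, Multiset.mem_toFinset, ← hP, Polynomial.mem_roots hPm.ne_zero]
      rw [Polynomial.IsRoot.def, hP, Polynomial.eval_map, ← Polynomial.aeval_def]
      exact minpoly.aeval ℚ x

theorem exists_places (T : Finset (AlgebraicClosure ℚ)) :
    ∃ (k : ℕ) (v : Fin k → AbsoluteValue (AlgebraicClosure ℚ) ℝ),
      (∀ i, (∃ σ : AlgebraicClosure ℚ →+* ℂ, ∀ x, v i x = ‖σ x‖) ∨
        (∀ x y, v i (x + y) ≤ max (v i x) (v i y))) ∧
      ∀ B : ℝ, {x : AlgebraicClosure ℚ |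
        x ∈ Subring.closure (T : Set (AlgebraicClosure ℚ)) ∧ ∀ i, v i x ≤ B}.Finite := by
  have : Algebra.IsAlgebraic ℚ (AlgebraicClosure ℚ) := AlgebraicClosure.isAlgebraic ℚ
  exact exists_places_aux (A := AlgebraicClosure ℚ) T

end Pool.Agent.Helper61.Apc
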